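import Mathlib
import Pool.Agent.CPT.StmtsE
import Pool.Agent.Helper5_BSH.BST
import Pool.Agent.Helper98_BSH.HIL
import Pool.Agent.Helper27_BSH.HBD
import Pool.Agent.Helper10_BSH.LIM
import Pool.Agent.Helper80_BSH.MAP
import Pool.Agent.Helper44_CPT.NUM
import Pool.Agent.Helper27_CPT.CHB
import Pool.Agent.Helper10_CPT.HBF
import Pool.Agent.Helper25_CPT.AUB
import Pool.Agent.Helper77_CPT.SPC
import Pool.Agent.Helper23_CPT.GRD
import Pool.Agent.Helper16_CPT.ESS
import Pool.Agent.Helper85_CPT.DEG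
import Pool.Agent.Helper95_CPT.QDT
import Pool.Agent.Helper69_CPT.CND
import Pool.Agent.Helper97_CPT.CNT
import Pool.Agent.Helper77_CPT.LIP
import Pool.Agent.Helper21_CPT.LDV
import Pool.Agent.Helper91_CPT.CHA
import Pool.Agent.Helper34_CPT.LAU
import Pool.Agent.Helper86_CPT.DUA
import Pool.Agent.Helper48_CPT.DEX
import Pool.Agent.Helper6_CPT.PJZ
import Pool.Agent.Helper88_CPT.PUX
import Pool.Agent.Helper81_CPT.ITG
import Pool.Agent.Helper25_CPT.GLU
import Pool.Agent.Helper95_CPT.FRB
import Pool.Agent.Helper72_CPT.TRD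
import Pool.Agent.Helper86_CPT.ALI
import Pool.Agent.Helper69_CPT.BAK
import Pool.Agent.Helper68_CPT.STB

set_option autoImplicit false

/-! The rows of the squad CPT put together (first part). -/

namespace Pool.Agent.CPT.H99

theorem hbf : HbfStmt := H10.hbf (BSH.H27.hbd BSH.H98.hil) BSH.H80.map

theorem aub : AubStmt := H25.aub BSH.H5.bst BSH.H10.lim H44.num H27.chb hbf

theorem lau : LauStmt := H34.lau H21.ldv H91.cha

theorem pux : PuxStmt := H88.pux H6.pjz

theorem itg : ItgStmt := H81.itg lau H48.dex pux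

theorem stb : StbStmt := H68.stb H77.lip H86.dua itg H25.glu H95.frb H72.trd H86.ali H69.bak

theorem grd : GrdStmt := H23.grd H77.spc stb

theorem cnd : CndStmt := H69.cnd (H95.qdt H85.deg)

end Pool.Agent.CPT.H99
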