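import Mathlib
import Pool.Agent.CPT.StmtsC

set_option autoImplicit false

namespace Pool.Agent.CPT.H99

theorem fact1 {A : Type} [CommRing A] (j : ℕ) :
    ∏ k ∈ Finset.range j, ((j : A) - (k : A)) = (j.factorial : A) := by
  rw [← Finset.prod_range_reflect]
  rw [← Finset.prod_range_add_one_eq_factorial, Nat.cast_prod]
  refine Finset.prod_congr rfl fun k hk => ?_
  rw [Finset.mem_range] at hk
  have : (j - 1 - k : ℕ) + (k + 1) = j := by omega
  have h2 : ((j - 1 - k : ℕ) : A) + ((k + 1 : ℕ) : A) = (j : A) := by rw [← Nat.cast_add, this]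
  rw [← h2]
  ring

theorem fact2 {A : Type} [CommRing A] (j N : ℕ) :
    ∏ k ∈ Finset.Ico (j + 1) N, ((k : A) - (j : A)) = ((N - 1 - j).factorial : A) := by
  rw [Finset.prod_Ico_eq_prod_range, ← Finset.prod_range_add_one_eq_factorial, Nat.cast_prod]
  rw [show N - (j + 1) = N - 1 - j by omega]
  refine Finset.prod_congr rfl fun k _ => ?_
  push_cast
  ring

theorem crv_node (A : Type) [CommRing A] (r : ℕ) (H : List (ℕ × (Fin r → ℕ)))
    (j : Fin H.length) (i : ℕ) :
    crv H ((j : ℕ) : A) i =
      ((H.length - 1).factorial : A) * pt A r (H.get j).1 (H.get j).2 i := by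
  unfold crv
  rw [Finset.sum_eq_single j]
  · rw [fact1, fact2]
    have hj : (j : ℕ) ≤ H.length - 1 := by have := j.2; omega
    have h := Nat.choose_mul_factorial_mul_factorial hj
    rw [← h]
    push_cast
    ring
  · intro j' _ hne
    have hne' : (j' : ℕ) ≠ j := fun h => hne (Fin.ext h)
    rcases Nat.lt_or_gt_of_ne hne' with hlt | hlt
    · have h0 : ∏ k ∈ Finset.Ico ((j' : ℕ) + 1) H.length, ((k : A) - ((j : ℕ) : A)) = 0 :=
        Finset.prod_eq_zero (i := (j : ℕ)) (Finset.mem_Ico.mpr ⟨hlt, j.2⟩) (sub_self _)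
      rw [h0]
      ring
    · have h0 : ∏ k ∈ Finset.range (j' : ℕ), (((j : ℕ) : A) - (k : A)) = 0 :=
        Finset.prod_eq_zero (i := (j : ℕ)) (Finset.mem_range.mpr hlt) (sub_self _)
      rw [h0]
      ring
  · intro h
    exact absurd (Finset.mem_univ _) h

theorem pt_map {A A' : Type} [CommRing A] [CommRing A'] (φ : A →+* A') (r t : ℕ) (c : Fin r → ℕ)
    (i : ℕ) : φ (pt A r t c i) = pt A' r t c i := by
  unfold pt
  rw [map_sum]
  refine Finset.sum_congr rfl fun j _ => ?_
  rw [map_mul, map_pow, map_natCast, map_natCast]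

theorem crv : CrvStmt := by
  refine ⟨crv_node, ?_, ?_⟩
  · intro A A' _ _ φ r H τ i
    unfold CPT.crv
    rw [map_sum]
    refine Finset.sum_congr rfl fun j _ => ?_
    rw [map_mul, map_mul, map_natCast, map_mul, map_prod, map_prod, pt_map]
    simp only [map_sub, map_natCast]
  · intro E _ r H i
    unfold CPT.crv
    refine Polynomial.natDegree_sum_le_of_forall_le _ _ fun j _ => ?_
    have h1 : (∏ k ∈ Finset.range (j : ℕ), ((Polynomial.X : Polynomial E) - (k : Polynomial E))).natDegree
        ≤ j := by
      refine (Polynomial.natDegree_prod_le _ _).trans ?_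
      refine (Finset.sum_le_sum (g := fun _ => 1) fun k _ => ?_).trans (by simp)
      refine (Polynomial.natDegree_sub_le _ _).trans ?_
      simp [Polynomial.natDegree_natCast]
    have h2 : (∏ k ∈ Finset.Ico ((j : ℕ) + 1) H.length,
        ((k : Polynomial E) - (Polynomial.X : Polynomial E))).natDegree ≤ H.length - (j + 1) := by
      refine (Polynomial.natDegree_prod_le _ _).trans ?_
      refine (Finset.sum_le_sum (g := fun _ => 1) fun k _ => ?_).trans (by simp)
      refine (Polynomial.natDegree_sub_le _ _).trans ?_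
      simp [Polynomial.natDegree_natCast]
    have h3 : (pt (Polynomial E) r (H.get j).1 (H.get j).2 i).natDegree ≤ 0 := by
      rw [show pt (Polynomial E) r (H.get j).1 (H.get j).2 i =
        Polynomial.C (pt E r (H.get j).1 (H.get j).2 i) from (pt_map Polynomial.C _ _ _ _).symm]
      simp
    have h4 : (((H.length - 1).choose j : ℕ) : Polynomial E).natDegree ≤ 0 := by
      simp [Polynomial.natDegree_natCast]
    have hj := j.2
    refine Polynomial.natDegree_mul_le.trans ?_
    refine (Nat.add_le_add (Polynomial.natDegree_mul_le.trans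
      (Nat.add_le_add h4 (Polynomial.natDegree_mul_le.trans (Nat.add_le_add h1 h2)))) h3).trans ?_
    omega

end Pool.Agent.CPT.H99
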