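import Mathlib
import Pool.Agent.CPT.StmtsD
import Pool.Agent.Helper23_CPT.GRD
import Pool.Agent.Helper39_CPT.CAL

set_option autoImplicit false

/-! CPT: the greedy point and the degree. -/

namespace Pool.Agent.CPT.H99

open MvPolynomial Pool.Agent.BSH Pool.Agent.Helper78_ACIT Pool.Agent.CPT.H23

/-- GRD with the sum of the coordinates. -/
def GreStmt : Prop :=
  ∀ (E : Type) [Field E] [CharZero E] (n : ℕ) (θ : Fin n → ℕ → E) (F : MvPolynomial (Fin n) E),
    (∀ i, Function.Injective (θ i)) → F ≠ 0 →
    ∃ c : Fin n → ℕ, eval (fun i => θ i (c i)) F ≠ 0 ∧ ∑ i, c i ≤ F.totalDegree ∧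
      ∃ (k : ℕ) (ρ : Fin n → MvPolynomial (Fin k) E),
        (∀ i, (∃ j, ρ i = X j) ∨ ∃ e, ρ i = C e) ∧ (aeval ρ F : MvPolynomial (Fin k) E) ≠ 0 ∧
        Ind E k (L (aeval ρ F)) (∏ i, max 1 (c i))

/-- CAL with the sum of the coordinates. -/
def CaeStmt : Prop :=
  ∀ (E : Type) [Field E] [CharZero E] (n s : ℕ) (θ : Fin n → ℕ → E)
    (F : MvPolynomial (Fin n) E), (∀ i, Function.Injective (θ i)) → F ≠ 0 → IsLim E n s F →
    ∃ c : Fin n → ℕ, ∏ i, max 1 (c i) ≤ 8 ^ s ∧ ∑ i, c i ≤ F.totalDegree ∧
      eval (fun i => θ i (c i)) F ≠ 0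

section

variable {E : Type} [Field E]

theorem deg_aeval {σ τ : Type} (f : σ → MvPolynomial τ E) (hf : ∀ i, (f i).totalDegree ≤ 1)
    (p : MvPolynomial σ E) : (aeval f p : MvPolynomial τ E).totalDegree ≤ p.totalDegree := by
  classical
  rw [aeval_def, eval₂_eq]
  refine totalDegree_finsetSum_le fun d hd => ?_
  refine (totalDegree_mul _ _).trans ?_
  have h1 : (algebraMap E (MvPolynomial τ E) (coeff d p)).totalDegree = 0 := by
    rw [algebraMap_eq, totalDegree_C]
  have h2 : (∏ i ∈ d.support, f i ^ d i).totalDegree ≤ ∑ i ∈ d.support, d i := by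
    refine (totalDegree_finsetProd _ _).trans (Finset.sum_le_sum fun i _ => ?_)
    refine (totalDegree_pow _ _).trans ?_
    exact (Nat.mul_le_mul_left _ (hf i)).trans (by omega)
  have h3 : ∑ i ∈ d.support, d i ≤ p.totalDegree := by
    have := le_totalDegree hd
    simpa [Finsupp.sum] using this
  omega

theorem deg_spec_le {n : ℕ} (e : E) (F : MvPolynomial (Fin (n + 1)) E) :
    (spec e F).totalDegree ≤ F.totalDegree := by
  unfold spec
  refine deg_aeval _ (fun i => ?_) F
  refine Fin.cases ?_ (fun j => ?_) i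
  · rw [Fin.cons_zero, totalDegree_C]
    omega
  · rw [Fin.cons_succ, totalDegree_X]

theorem deg_spec_set {n : ℕ} (e : E) (S : Finset E) : ∀ F : MvPolynomial (Fin (n + 1)) E,
    e ∉ S → (∀ x ∈ S, spec x F = 0) → spec e F ≠ 0 →
    (spec e F).totalDegree + S.card ≤ F.totalDegree := by
  classical
  induction S using Finset.induction_on with
  | empty =>
    intro F _ _ _
    simpa using deg_spec_le e F
  | insert x S hx ih =>
    intro F he h hF
    obtain ⟨G, rfl⟩ := spec_dvd (h x (Finset.mem_insert_self x S))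
    have hs : ∀ y : E, spec y ((X 0 - C x) * G) = C (y - x) * (spec y G : MvPolynomial (Fin n) E) := by
      intro y
      rw [map_mul]
      congr 1
      simp [spec]
    have hex : e - x ≠ 0 := fun h0 => he (by rw [sub_eq_zero.mp h0]; exact Finset.mem_insert_self _ _)
    have hG : spec e G ≠ 0 := by
      intro h0
      rw [hs, h0, mul_zero] at hF
      exact hF rfl
    have hG0 : G ≠ 0 := fun h0 => hG (by rw [h0, map_zero])
    have h1 := ih G (fun h0 => he (Finset.mem_insert_of_mem h0)) (fun y hy => by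
      have h2 := h y (Finset.mem_insert_of_mem hy)
      rw [hs] at h2
      have h3 : y - x ≠ 0 := fun h0 => hx (by rw [← sub_eq_zero.mp h0]; exact hy)
      rcases mul_eq_zero.mp h2 with h4 | h4
      · exact absurd ((map_eq_zero_iff _ (C_injective (Fin n) E)).1 h4) h3
      · exact h4) hG
    have h5 : (X 0 - C x : MvPolynomial (Fin (n + 1)) E) ≠ 0 := by
      intro h0
      rw [h0, zero_mul, map_zero] at hF
      exact hF rfl
    have h6 : (X 0 - C x : MvPolynomial (Fin (n + 1)) E).totalDegree = 1 := by
      have h7 : (X 0 : MvPolynomial (Fin (n + 1)) E) = (X 0 - C x) + C x := by ring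
      have h8 := totalDegree_add (X 0 - C x : MvPolynomial (Fin (n + 1)) E) (C x)
      rw [← h7, totalDegree_X, totalDegree_C] at h8
      have h9 := totalDegree_sub_C_le (X 0 : MvPolynomial (Fin (n + 1)) E) x
      rw [totalDegree_X] at h9
      omega
    rw [totalDegree_mul_of_isDomain h5 hG0, h6, hs, Finset.card_insert_of_notMem hx]
    have h10 : (C (e - x) * (spec e G : MvPolynomial (Fin n) E)).totalDegree ≤
        (spec e G : MvPolynomial (Fin n) E).totalDegree := by
      refine (totalDegree_mul _ _).trans ?_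
      rw [totalDegree_C]
      omega
    omega

theorem deg_spec {n : ℕ} {θ : ℕ → E} (hθ : Function.Injective θ) {F : MvPolynomial (Fin (n + 1)) E}
    (a : ℕ) (h : ∀ j < a, spec (θ j) F = 0) (ha : spec (θ a) F ≠ 0) :
    (spec (θ a) F).totalDegree + a ≤ F.totalDegree := by
  classical
  have h1 := deg_spec_set (θ a) ((Finset.range a).image θ) F (fun h0 => by
    obtain ⟨j, hj, h2⟩ := Finset.mem_image.mp h0
    rw [Finset.mem_range] at hj
    exact absurd (hθ h2) (by omega)) (fun x hx => by
    obtain ⟨j, hj, rfl⟩ := Finset.mem_image.mp hx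
    exact h j (Finset.mem_range.mp hj)) ha
  rwa [Finset.card_image_of_injective _ hθ, Finset.card_range] at h1

end

/-- The greedy point, with its degree. -/
theorem gre (hSpc : SpcStmt) (hStb : StbStmt) : GreStmt := by
  intro E _ _ n
  induction n with
  | zero =>
    intro θ F _ hF
    have hC : F = C (constantCoeff F) := by
      exact eq_C_of_isEmpty F
    have hne : constantCoeff F ≠ 0 := by
      intro h
      rw [h, map_zero] at hC
      exact hF hC
    refine ⟨fun i => i.elim0, ?_, by simp, 0, fun i => i.elim0, fun i => i.elim0, ?_, ?_⟩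
    · rw [hC, eval_C]
      exact hne
    · rw [hC, aeval_C]
      intro h
      apply hne
      exact (map_eq_zero_iff _ (C_injective (Fin 0) E)).1 h
    · refine ⟨fun _ => 1, ?_⟩
      have hp : (∏ i : Fin 0, max 1 ((fun i : Fin 0 => (i.elim0 : ℕ)) i)) = 1 := by simp
      haveI : Subsingleton (Fin (∏ i : Fin 0, max 1 ((fun i : Fin 0 => (i.elim0 : ℕ)) i))) := by
        rw [hp]
        infer_instance
      haveI : Subsingleton (Fin (∏ i : Fin 0, max 1 ((fun i : Fin 0 => (i.elim0 : ℕ)) i)) ×
          (Fin 0 →₀ ℕ)) := inferInstance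
      refine LinearIndependent.of_subsingleton
        (⟨⟨0, by rw [hp]; omega⟩, 0⟩) ?_
      simp
  | succ n ih =>
    intro θ F hθ hF
    classical
    have hex := spec_exists (hθ 0) hF
    obtain ⟨a, ha, hmin⟩ : ∃ a, spec (θ 0 a) F ≠ 0 ∧ ∀ j < a, spec (θ 0 j) F = 0 :=
      ⟨Nat.find hex, Nat.find_spec hex, fun j hj => by
        have := Nat.find_min hex hj
        push Not at this
        exact this⟩
    obtain ⟨c', hc', hsum, k', ρ', hρ', hG2, hInd⟩ := ih (fun i => θ i.succ) (spec (θ 0 a) F)
      (fun i => hθ i.succ) ha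
    have hprod : ∏ i, max 1 ((Fin.cons a c' : Fin (n + 1) → ℕ) i) =
        max 1 a * ∏ i, max 1 (c' i) := by
      rw [Fin.prod_univ_succ]
      simp
    refine ⟨Fin.cons a c', ?_, ?_, ?_⟩
    · rw [eval_cons]
      exact hc'
    · rw [Fin.sum_univ_succ]
      simp only [Fin.cons_zero, Fin.cons_succ]
      have := deg_spec (hθ 0) a hmin ha
      omega
    · rw [hprod]
      rcases Nat.eq_zero_or_pos a with h0 | h0
      · subst h0
        refine ⟨k', Fin.cons (C (θ 0 0)) ρ', ?_, ?_, ?_⟩
        · intro i
          refine Fin.cases ?_ ?_ i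
          · right
            exact ⟨θ 0 0, by simp⟩
          · intro j
            simpa using hρ' j
        · rw [aeval_cons]
          exact hG2
        · rw [aeval_cons]
          simpa using hInd
      · have hmax : max 1 a = a := by omega
        rw [hmax]
        have hsp := spec_aeval (θ 0 a) ρ' F
        have hGne : (aeval (Fin.cons (X 0) (fun i => rename Fin.succ (ρ' i)) :
            Fin (n + 1) → MvPolynomial (Fin (k' + 1)) E) F) ≠ 0 := by
          intro h
          rw [h, map_zero] at hsp
          exact hG2 hsp.symm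
        refine ⟨k' + 1, Fin.cons (X 0) (fun i => rename Fin.succ (ρ' i)), ?_, hGne, ?_⟩
        · intro i
          refine Fin.cases ?_ ?_ i
          · left
            exact ⟨0, by simp⟩
          · intro j
            rw [Fin.cons_succ]
            rcases hρ' j with ⟨l, hl⟩ | ⟨e, he⟩
            · left
              exact ⟨l.succ, by rw [hl, rename_X]⟩
            · right
              exact ⟨e, by rw [he, rename_C]⟩
        · refine hStb E k' _ a _ (θ 0) hGne h0 (hθ 0) ?_ ?_
          · intro j hj
            have h1 := spec_dvd (hmin j hj)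
            have h2 := map_dvd (aeval (Fin.cons (X 0) (fun i => rename Fin.succ (ρ' i)) :
              Fin (n + 1) → MvPolynomial (Fin (k' + 1)) E)) h1
            rw [map_sub, aeval_X, Fin.cons_zero, aeval_C] at h2
            exact h2
          · refine hSpc E k' _ _ (θ 0 a) ?_ ?_
            · rw [hsp]
              exact hG2
            · rw [hsp]
              exact hInd


/-- CAL with the sum of the coordinates. -/
theorem cae (gre : GreStmt) (bsl : BslStmt) (bau : BauStmt) : CaeStmt := by
  intro E _ _ n s θ F hθ hF hl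
  obtain ⟨c, hc, hsum, k, ρ, hρ, hne, hind⟩ := gre E n θ F hθ hF
  refine ⟨c, ?_, hsum, hc⟩
  refine bau E k s _ (aeval ρ F) hne (bsl E n k s F (aeval ρ) hl ?_) hind
  intro i
  rw [aeval_X]
  unfold sp
  rcases hρ i with ⟨j, hj⟩ | ⟨e, he⟩
  · rw [hj]
    exact Submodule.subset_span (Or.inl (Or.inr ⟨j, rfl⟩))
  · rw [he]
    have h1 : (C e : MvPolynomial (Fin k) E) = e • 1 := by
      rw [← MvPolynomial.C_1, MvPolynomial.smul_eq_C_mul, ← MvPolynomial.C_mul, mul_one]
    rw [h1]
    exact Submodule.smul_mem _ _ (Submodule.subset_span (Or.inl (Or.inl rfl)))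

end Pool.Agent.CPT.H99
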