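import Mathlib
import Pool.Agent.CPT.StmtsE
import Pool.Agent.Helper98_CPT.TSC

set_option autoImplicit false

/-! CPT: the test for factors of limits, at the points. -/

namespace Pool.Agent.CPT.H99

open MvPolynomial Pool.Agent.BSH Pool.Agent.Helper78_ACIT Pool.Agent.CPT.H98

/-- The test for factors of limits. -/
def TspStmt : Prop :=
  ∀ (E : Type) [Field E] [CharZero E] (n s D b : ℕ) (G : List Gate), WellFormed G →
    (∀ v, Gate.var v ∈ G → v < n) →
    (poly G = 0 ∨ ((poly G).totalDegree ≤ D ∧ Pool.Agent.UO.length (poly G) ≤ 2 ^ b ∧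
      ∃ F : MvPolynomial (Fin n) E, IsLim E n s F ∧ F ≠ 0 ∧ gp E n G ∣ F)) →
    (G ∈ ACIT ↔ ∀ p, p.Prime → p ≤ 64 * (b + D * bits n s + 1) ^ 2 →
      ∀ t ≤ n * (2 * s + 1) ^ 2, ∀ c : Fin (2 * s + 1) → ℕ, ∏ j, max 1 (c j) ≤ 8 ^ s →
        out (fun i => pt (ZMod p) (2 * s + 1) t c i) G = 0)

theorem ptA_pt {A : Type} [CommRing A] (r t : ℕ) (c : Fin r → ℕ) (i : ℕ) :
    ptA r t (fun j => (c j : A)) i = pt A r t c i := rfl

theorem tsp (hGPM : GpmStmt) (hHTL : HtlStmt) (hSIZ : SizStmt) : TspStmt := by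
  intro E _ _ n s D b G hG hv hpoly
  constructor
  · intro h p _ _ t _ c _
    rw [out_eq_eval, h.2, MvPolynomial.eval₂_zero]
  · intro htest
    refine ⟨hG, ?_⟩
    rcases hpoly with h0 | ⟨hD, hb, F, hF, hF0, hdvd⟩
    · exact h0
    exfalso
    obtain ⟨-, g2, -⟩ := hGPM E n G hG hv
    obtain ⟨t, ht, c, hc, hne⟩ := hHTL E n s (fun _ k => (k : E)) F
      (fun _ => Nat.cast_injective) hF0 hF
    simp only [ptA_pt] at hne
    obtain ⟨Q, hQ⟩ := hdvd
    rw [hQ, map_mul] at hne
    have hne1 := left_ne_zero_of_mul hne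
    obtain ⟨x, hx⟩ : ∃ x : ℕ → ℤ, x = fun i => if i < n then pt ℤ (2 * s + 1) t c i else 0 :=
      ⟨_, rfl⟩
    have hxle : ∀ i, (x i).natAbs ≤ 2 ^ bits n s := by
      intro i
      rw [hx]
      by_cases hi : i < n
      · simp only [if_pos hi]
        exact hSIZ n s t i c ht hi.le hc
      · simp only [if_neg hi]
        exact Nat.zero_le _
    have h1 := g2 x
    have h2 : (fun i : Fin n => ((x i : ℤ) : E)) =
        fun i : Fin n => pt E (2 * s + 1) t c i := by
      funext i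
      rw [hx]
      simp only [if_pos i.2]
      exact pt_map (Int.castRingHom E) (2 * s + 1) t c i
    rw [h2] at h1
    rw [h1] at hne1
    obtain ⟨z, hz⟩ : ∃ z, z = out x G := ⟨_, rfl⟩
    rw [← hz] at hne1
    have hz0 : z ≠ 0 := by
      rintro rfl
      exact hne1 Int.cast_zero
    have hzle : z.natAbs ≤ 2 ^ (b + D * bits n s) := by
      have h3 : z = eval x (poly G) := by
        rw [hz, out_eq_eval]
        rfl
      rw [h3]
      refine (UO.natAbs_eval_le (poly G) x (2 ^ bits n s) D (Nat.one_le_pow _ _ (by norm_num)) hxle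
        hD).trans ?_
      rw [← pow_mul, pow_add, mul_comm D (bits n s)]
      exact Nat.mul_le_mul_right _ hb
    obtain ⟨p, hp, hple, hpnd⟩ := exists_prime_not_dvd z.natAbs _ (Int.natAbs_ne_zero.mpr hz0)
      hzle
    apply hpnd
    have h4 := htest p hp hple t ht c hc
    have h5 : out (fun i => pt (ZMod p) (2 * s + 1) t c i) G = ((z : ℤ) : ZMod p) := by
      have h6 := out_map (Int.castRingHom (ZMod p)) x G
      rw [← hz] at h6
      refine Eq.trans (out_congr _ _ G fun v hvG => ?_) h6.symm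
      rw [hx]
      simp only [if_pos (hv v hvG)]
      exact (pt_map (Int.castRingHom (ZMod p)) (2 * s + 1) t c v).symm
    rw [h5, ZMod.intCast_zmod_eq_zero_iff_dvd, Int.natCast_dvd] at h4
    exact h4

end Pool.Agent.CPT.H99
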