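import Mathlib
import Pool.Agent.CPT.StmtsA

set_option autoImplicit false

/-! The number of the evaluations of the test. -/

namespace Pool.Agent.CPT.H99

/-- The bound for the number of primes, parameters and seeds. -/
theorem tot (g s : ℕ) (hg : 1 ≤ g) (hs : s ≤ g) :
    (64 * ((bits g s + g) * 2 ^ s + 1) ^ 2 + 1) * (g * (2 * s + 1) ^ 2 + 1) *
      ((8 ^ s) ^ 2 * 3 ^ (2 * s + 1)) ≤ (g + 1) ^ 26 * 2 ^ (12 * s) := by
  have h1 : bits g s + g + 1 ≤ 12 * (g + 1) ^ 3 := by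
    unfold bits
    have : (2 * s + 1) + g * (2 * s + 1) * (g + 2 * (2 * s + 1)) + 3 * s + g + 1 ≤
        (2 * g + 1) + g * (2 * g + 1) * (g + 2 * (2 * g + 1)) + 3 * g + g + 1 := by
      gcongr
    nlinarith [this, sq_nonneg g, Nat.zero_le g]
  have h2 : (bits g s + g) * 2 ^ s + 1 ≤ 12 * (g + 1) ^ 3 * 2 ^ s := by
    have h3 : 1 ≤ 2 ^ s := Nat.one_le_two_pow
    nlinarith [Nat.mul_le_mul_right (2 ^ s) h1]
  have h4 : 64 * ((bits g s + g) * 2 ^ s + 1) ^ 2 + 1 ≤ 9217 * (g + 1) ^ 6 * 4 ^ s := by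
    have h5 := Nat.pow_le_pow_left h2 2
    have h6 : (12 * (g + 1) ^ 3 * 2 ^ s) ^ 2 = 144 * ((g + 1) ^ 6 * 4 ^ s) := by
      rw [show (4 : ℕ) ^ s = (2 ^ s) ^ 2 by rw [← pow_mul, mul_comm s 2, pow_mul]; norm_num]
      ring
    have h7 : 1 ≤ (g + 1) ^ 6 * 4 ^ s := Nat.one_le_iff_ne_zero.mpr (by positivity)
    rw [h6] at h5
    nlinarith
  have h8 : g * (2 * s + 1) ^ 2 + 1 ≤ 4 * (g + 1) ^ 3 := by
    have : g * (2 * s + 1) ^ 2 + 1 ≤ g * (2 * g + 1) ^ 2 + 1 := by gcongr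
    nlinarith [this, sq_nonneg g, Nat.zero_le g]
  have h9 : (8 ^ s) ^ 2 * 3 ^ (2 * s + 1) ≤ 3 * 1024 ^ s := by
    have h10 : (8 ^ s) ^ 2 * 3 ^ (2 * s + 1) = 3 * 576 ^ s := by
      have e1 : (8 ^ s) ^ 2 = 64 ^ s := by rw [← pow_mul, mul_comm, pow_mul]; norm_num
      have e2 : 3 ^ (2 * s + 1) = 3 * 9 ^ s := by rw [pow_succ, pow_mul]; norm_num; ring
      rw [e1, e2, show (576 : ℕ) = 64 * 9 by norm_num, mul_pow]
      ring
    rw [h10]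
    gcongr
    norm_num
  calc _ ≤ (9217 * (g + 1) ^ 6 * 4 ^ s) * (4 * (g + 1) ^ 3) * (3 * 1024 ^ s) := by gcongr
    _ = 110604 * ((g + 1) ^ 9 * 2 ^ (12 * s)) := by
      rw [show 2 ^ (12 * s) = 4 ^ s * 1024 ^ s by
        rw [← mul_pow, pow_mul]; norm_num]
      ring
    _ ≤ (g + 1) ^ 17 * ((g + 1) ^ 9 * 2 ^ (12 * s)) := by
      refine Nat.mul_le_mul_right _ ?_
      calc 110604 ≤ 2 ^ 17 := by norm_num
        _ ≤ _ := Nat.pow_le_pow_left (by omega) 17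
    _ = _ := by ring

end Pool.Agent.CPT.H99
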