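import Mathlib
import Pool.Agent.CPT.StmtsA

set_option autoImplicit false

namespace Pool.Agent.CPT.H99

open Pool.Agent.Helper78_ACIT Pool.Agent.BSH

theorem getD_bound {B : ℕ} (vals : List ℤ) (h : ∀ a ∈ vals, a.natAbs ≤ B) (j : ℕ) :
    (vals.getD j 0).natAbs ≤ B := by
  rw [List.getD_eq_getElem?_getD]
  rcases h1 : vals[j]? with _ | a
  · simp
  · simpa [h1] using h a (List.mem_of_getElem? h1)

theorem gate_bound (x : ℕ → ℤ) (β a m : ℕ) (hx : ∀ v, (x v).natAbs ≤ 2 ^ β) (vals : List ℤ)
    (h : ∀ z ∈ vals, z.natAbs ≤ 2 ^ ((β + a) * 2 ^ m)) (g : Gate) :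
    (g.value x vals).natAbs ≤ 2 ^ ((β + (a + 1)) * 2 ^ (m + if isMul g then 1 else 0)) := by
  have h2 : 1 ≤ 2 ^ m := Nat.one_le_two_pow
  have hd := getD_bound vals h
  have hE : (2 : ℕ) ^ ((β + a) * 2 ^ m) + 2 ^ ((β + a) * 2 ^ m) ≤ 2 ^ ((β + (a + 1)) * 2 ^ m) := by
    rw [← two_mul, ← pow_succ']
    refine Nat.pow_le_pow_right (by norm_num) ?_
    nlinarith
  cases g with
  | zero => simp [Gate.value]
  | one => simp [Gate.value, Nat.one_le_two_pow]
  | var j =>
    refine (hx j).trans (Nat.pow_le_pow_right (by norm_num) ?_)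
    calc β ≤ (β + (a + 1)) * 1 := by omega
      _ ≤ _ := Nat.mul_le_mul_left _ Nat.one_le_two_pow
  | add i j =>
    simp only [Gate.value, isMul]
    refine (Int.natAbs_add_le _ _).trans ?_
    exact (Nat.add_le_add (hd i) (hd j)).trans hE
  | sub i j =>
    simp only [Gate.value, isMul]
    refine (Int.natAbs_sub_le _ _).trans ?_
    exact (Nat.add_le_add (hd i) (hd j)).trans hE
  | mul i j =>
    simp only [Gate.value, isMul]
    rw [Int.natAbs_mul]
    refine (Nat.mul_le_mul (hd i) (hd j)).trans ?_
    rw [← pow_add]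
    refine Nat.pow_le_pow_right (by norm_num) ?_
    rw [if_pos trivial, pow_succ]
    nlinarith

theorem values_bound (x : ℕ → ℤ) (β : ℕ) (hx : ∀ v, (x v).natAbs ≤ 2 ^ β) (G : List Gate) :
    ∀ z ∈ values x G, z.natAbs ≤ 2 ^ ((β + G.length) * 2 ^ G.countP isMul) := by
  induction G using List.reverseRecOn with
  | nil => simp [values]
  | append_singleton G g ih =>
    have e : values x (G ++ [g]) = values x G ++ [g.value x (values x G)] := by
      simp [values, List.foldl_append]
    rw [e]
    intro z hz
    rw [List.mem_append, List.mem_singleton] at hz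
    have hc : (G ++ [g]).countP isMul = G.countP isMul + if isMul g then 1 else 0 := by
      rw [List.countP_append]
      simp [List.countP_cons]
    rw [hc, List.length_append, List.length_singleton]
    rcases hz with hz | rfl
    · refine (ih z hz).trans (Nat.pow_le_pow_right (by norm_num) ?_)
      exact Nat.mul_le_mul (by omega) (Nat.pow_le_pow_right (by norm_num) (by omega))
    · exact gate_bound x β G.length _ hx _ ih g

theorem val : ValStmt := by
  intro G β x hx
  unfold out
  rcases h : values x G with _ | ⟨z, l⟩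
  · simp
  · have hm : (z :: l).getLastD 0 ∈ values x G := by
      rw [h]
      have : (z :: l).getLastD 0 = (z :: l).getLast (by simp) := by
        simp [List.getLastD_eq_getLast?, List.getLast?_eq_some_getLast]
      rw [this]
      exact List.getLast_mem _
    exact values_bound x β hx G _ hm

end Pool.Agent.CPT.H99
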