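import Mathlib
import Pool.Agent.Helper99_CPT.All0
import Pool.Agent.Helper99_CPT.VAL
import Pool.Agent.Helper99_CPT.CRV
import Pool.Agent.Helper99_CPT.Tot
import Pool.Agent.Helper99_CPT.GRE
import Pool.Agent.Helper99_CPT.TSP
import Pool.Agent.Helper62_CPT.SBL
import Pool.Agent.Helper65_CPT.CAP
import Pool.Agent.Helper81_CPT.HIT
import Pool.Agent.Helper81_CPT.TSA
import Pool.Agent.Helper26_CPT.SIZ
import Pool.Agent.Helper2_CPT.REN
import Pool.Agent.Helper27_CPT.PTS
import Pool.Agent.Helper10_CPT.NMB
import Pool.Agent.Helper92_CPT.SZC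
import Pool.Agent.Helper65_CPT.GPM
import Pool.Agent.Helper34_CPT.BRI
import Pool.Agent.Helper21_CPT.BAU
import Pool.Agent.Helper44_CPT.BSL
import Pool.Agent.Helper72_CPT.BRK
import Pool.Agent.Helper41_CPT.ESD
import Pool.Agent.Helper39_CPT.BES
import Pool.Agent.Helper39_CPT.CAL
import Pool.Agent.Helper5_CPT.HTL
import Pool.Agent.Helper25_CPT.HSL
import Pool.Agent.Helper68_CPT.PRL
import Pool.Agent.Helper98_CPT.TSL

set_option autoImplicit false

/-! The rows of the squad CPT put together (second part). -/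

namespace Pool.Agent.CPT.H99

theorem sbl : SblStmt := H62.sbl BSH.H80.map

theorem cap : CapStmt := H65.cap grd sbl aub

theorem hit : HitStmt := H81.hit H16.ess cnd sbl cap

theorem tsa : TsaStmt := H81.tsa hit H2.ren val H26.siz

theorem nmb : NmbStmt := H10.nmb H27.ptsRow

theorem szc : SzcStmt := H92.szc H26.siz nmb

theorem bau : BauStmt := H21.bau aub H34.bri

theorem bsl : BslStmt := H44.bsl sbl

theorem bes : BesStmt := H39.bes H16.ess H72.brk H41.esd

theorem cal : CalStmt := H39.cal grd bsl bau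

theorem caeRow : CaeStmt := cae (gre H77.spc stb) bsl bau

theorem htl : HtlStmt := H5.htl bes cnd bsl cal

theorem tspRow : TspStmt := tsp H65.gpm htl H26.siz

theorem hsl : HslStmt := H25.hsl htl nmb

theorem prl : PrlStmt := H68.prl hsl crv

theorem tsl : TslStmt := H98.tsl H65.gpm prl szc

end Pool.Agent.CPT.H99
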